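import Pool.Agent.Lib.MP_0813d1_al.All

namespace Pool.Agent.Results.MP_0813d1_al.AllPrimes

/-- For every prime `p`, every finite `p`-group embeds in a finite `p`-group whose Schur
multiplier (second integral homology group) is trivial. -/
theorem result (p : ℕ) (hp : p.Prime) (G : Type*) [Group G] [Finite G] (hG : IsPGroup p G) :
    ∃ (H : Type) (_ : Group H) (_ : Finite H), IsPGroup p H ∧
      Subsingleton (groupHomology (Rep.trivial ℤ H ℤ) 2) ∧
      ∃ φ : G →* H, Function.Injective φ := by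
  have : Fact p.Prime := ⟨hp⟩
  have e : Shrink.{0} G ≃* G := Shrink.mulEquiv
  have : Finite (Shrink.{0} G) := Finite.of_equiv G e.symm.toEquiv
  obtain ⟨H, i1, i2, h1, h2, φ, hφ⟩ :=
    Pool.Agent.Lib.MP_0813d1_al.main_all p (Shrink.{0} G) (hG.of_equiv e.symm)
  exact ⟨H, i1, i2, h1, h2, φ.comp e.symm.toMonoidHom, hφ.comp e.symm.injective⟩

end Pool.Agent.Results.MP_0813d1_al.AllPrimes
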